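import Mathlib
import Pool.Agent.Lib.MP_64528c_al.Core

/-!
A finite tree of fibered groups amalgamated along infinite virtually cyclic virtual retracts is
virtually fibered.
-/

set_option autoImplicit false

namespace Pool.Agent.Results.MP_64528c_al.VirtFib

universe u v w

/-- `H` maps onto the integers with finitely generated kernel. -/
def Fibered (H : Type w) [Group H] : Prop :=
  ∃ φ : H →* Multiplicative ℤ, Function.Surjective φ ∧ φ.ker.FG

/-- Some finite index subgroup of `H` is fibered. -/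
def VirtuallyFibered (H : Type w) [Group H] : Prop :=
  ∃ K : Subgroup H, K.FiniteIndex ∧ Fibered K

/-- `K` is a retract of a finite index subgroup of `H` containing it. -/
def IsVirtualRetract {H : Type w} [Group H] (K : Subgroup H) : Prop :=
  ∃ H' : Subgroup H, H'.FiniteIndex ∧
    ∃ (h : K ≤ H') (ρ : H' →* K), ∀ k : K, ρ (Subgroup.inclusion h k) = k

/-- `H` is infinite and has a cyclic subgroup of finite index. -/
def InfiniteVirtuallyCyclic (H : Type w) [Group H] : Prop :=
  Infinite H ∧ ∃ Z : Subgroup H, IsCyclic Z ∧ Z.FiniteIndex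

/-- The edge relations in the free product of the vertex groups: the two images of an edge
group element are identified. -/
def rels {V : Type v} (Γ : SimpleGraph V) (Gv : V → Type u) [∀ x, Group (Gv x)]
    (Ge : Γ.edgeSet → Type u) [∀ e, Group (Ge e)]
    (α : ∀ (e : Γ.edgeSet) (x : V), x ∈ e.1 → Ge e →* Gv x) : Set (Monoid.CoprodI Gv) :=
  {r | ∃ (e : Γ.edgeSet) (x y : V) (hx : x ∈ e.1) (hy : y ∈ e.1) (g : Ge e),
    r = Monoid.CoprodI.of (α e x hx g) * (Monoid.CoprodI.of (α e y hy g))⁻¹}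

/-- The fundamental group of a tree of groups. -/
abbrev Pi1 {V : Type v} (Γ : SimpleGraph V) (Gv : V → Type u) [∀ x, Group (Gv x)]
    (Ge : Γ.edgeSet → Type u) [∀ e, Group (Ge e)]
    (α : ∀ (e : Γ.edgeSet) (x : V), x ∈ e.1 → Ge e →* Gv x) : Type (max u v) :=
  Monoid.CoprodI Gv ⧸ Subgroup.normalClosure (rels Γ Gv Ge α)

open Pool.Agent.Lib.MP_64528c_al in
theorem result {V : Type v} [Finite V] (Γ : SimpleGraph V) (hΓ : Γ.IsTree)
    (Gv : V → Type u) [∀ x, Group (Gv x)] (Ge : Γ.edgeSet → Type u) [∀ e, Group (Ge e)]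
    (α : ∀ (e : Γ.edgeSet) (x : V), x ∈ e.1 → Ge e →* Gv x)
    (hinj : ∀ e x h, Function.Injective (α e x h))
    (hfib : ∀ x, Fibered (Gv x))
    (hvc : ∀ e, InfiniteVirtuallyCyclic (Ge e))
    (hvr : ∀ e x h, IsVirtualRetract (α e x h).range) :
    VirtuallyFibered (Pi1 Γ Gv Ge α) := by
  have hc : ∀ e, ∃ c : Ge e, ¬ IsOfFinOrder c ∧ (Subgroup.zpowers c).FiniteIndex := by
    intro e
    obtain ⟨_, Z, _, _⟩ := hvc e
    exact exists_generator Z
  choose c hc hcf using hc
  obtain ⟨X, _, _, ρ, N, z, hZ, hgood, hcomp⟩ := core hΓ Gv Ge α c (by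
    intro e x h
    obtain ⟨H, _, hle, r, hr⟩ := hvr e x h
    have := hcf e
    exact exists_retract_char (α e x h) (hinj e x h) (c e) (hc e) H hle r hr) (by
    intro x
    obtain ⟨φ, hs, hfg⟩ := hfib x
    refine ⟨fun g => (φ g).toAdd, fun a _ b _ => by simp, ?_, ?_⟩
    · convert hfg using 1
      ext g
      simp [IsChar.mem_pre]
    · obtain ⟨g, hg⟩ := hs (Multiplicative.ofAdd 1)
      exact ⟨g, by simp [hg]⟩)
  let ι : ∀ x, Gv x →* Pi1 Γ Gv Ge α := fun x =>
    (QuotientGroup.mk' _).comp (Monoid.CoprodI.of (i := x))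
  let σ : Pi1 Γ Gv Ge α →* Wr X := QuotientGroup.lift _ (Monoid.CoprodI.lift ρ) (by
    apply Subgroup.normalClosure_le_normal
    rintro _ ⟨e, x, y, hx, hy, g, rfl⟩
    have := DFunLike.congr_fun (hcomp e x y hx hy) g
    simp only [MonoidHom.comp_apply] at this
    simp [this])
  refine final hΓ Gv Ge α ρ N z hZ hgood ι ?_ ?_ σ ?_
  · intro e x y hx hy
    ext g
    simp only [ι, MonoidHom.comp_apply, QuotientGroup.mk'_apply]
    rw [eq_comm, QuotientGroup.eq_iff_div_mem, div_eq_mul_inv]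
    exact Subgroup.subset_normalClosure ⟨e, y, x, hy, hx, g, rfl⟩
  · rw [eq_top_iff]
    rintro g -
    obtain ⟨g, rfl⟩ := QuotientGroup.mk_surjective g
    induction g using Monoid.CoprodI.induction_on with
    | one => exact Subgroup.one_mem _
    | of i m => exact Subgroup.mem_iSup_of_mem i ⟨m, rfl⟩
    | mul x y hx hy => exact Subgroup.mul_mem _ hx hy
  · intro x
    ext g <;> simp [σ, ι]

end Pool.Agent.Results.MP_64528c_al.VirtFib
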